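import Pool.Agent.Q241.HF.Fin

/-!
# Either half of the pair correlation conjecture, at large distances only, implies it

No hypothesis is assumed.  `N0 T β` is the number of ordered pairs of zeros with ordinates in
`[0, T]` and normalised difference `(γ₁ - γ₂) log T / 2π` in `(0, β]`, and
`X T = (T / 2π) log T`.

(1) The conjecture (Q1) is equivalent to its lower half for large `β` with an exponentially small
loss: `liminf N0(T, β) / X(T) ≥ ∫_0^β F - C e^{-cβ}` for `β ≥ A`, some `C`, `c > 0`, `A`.
(2) It is equivalent to the upper half for large `β` with an exponentially small loss, together with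
the statement that the number of pairs of zeros with the same ordinate is at most `(1 + o(1)) X(T)`.
(3) It implies that almost all zeros are simple and on the critical line.

Idea of the proof.  A lower bound at large distances makes the diagonal small
(`Pool/Agent/Q241/OP`), so that almost all zeros are on the line and Montgomery's theorem holds for
the ordinates.  Let `E` be the discrepancy of a limit of the pair counting functions, extended as
an odd function.  It annihilates the derivatives of the band-limited even functions, hence also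
`x ↦ x K^(x)` for every smooth even `K` with small support: the quotient `K'(α) / α` is again
smooth.  So the even function `x E(x)` has a spectral gap, linear growth of `E` makes it tempered of
the required order, and its negative part is exponentially small.  Its positive part then has
exponential moments, both parts have analytic Fourier transforms which agree near `0`, and `E = 0`.
-/

open Filter Topology

namespace Pool.Agent.Results.MP_8958e8_nt.EitherHalf

/-- the nontrivial zeros of `ζ` with ordinate in `[0, T]` -/
def zeros (T : ℝ) : Set ℂ :=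
  {s : ℂ | riemannZeta s = 0 ∧ 0 < s.re ∧ s.re < 1 ∧ 0 ≤ s.im ∧ s.im ≤ T}

/-- the multiplicity of a zero -/
noncomputable def mult (s : ℂ) : ℕ := analyticOrderNatAt riemannZeta s

/-- `N(T; α, β)` as in the problem: the number of ordered pairs of ordinates in `[0, T]`, counted
with multiplicity, whose normalised difference lies in `[α, β]` -/
noncomputable def N (T α β : ℝ) : ℕ :=
  ∑ᶠ p ∈ {p : ℂ × ℂ | p.1 ∈ zeros T ∧ p.2 ∈ zeros T ∧
    α ≤ (p.1.im - p.2.im) * Real.log T / (2 * Real.pi) ∧
    (p.1.im - p.2.im) * Real.log T / (2 * Real.pi) ≤ β}, mult p.1 * mult p.2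

/-- the same with the normalised difference in `(0, β]` -/
noncomputable def N0 (T β : ℝ) : ℕ :=
  ∑ᶠ p ∈ {p : ℂ × ℂ | p.1 ∈ zeros T ∧ p.2 ∈ zeros T ∧
    0 < (p.1.im - p.2.im) * Real.log T / (2 * Real.pi) ∧
    (p.1.im - p.2.im) * Real.log T / (2 * Real.pi) ≤ β}, mult p.1 * mult p.2

/-- the number of ordered pairs of zeros with the same ordinate in `(0, T]`, with multiplicity -/
noncomputable def D0 (T : ℝ) : ℕ :=
  ∑ᶠ p ∈ {p : ℂ × ℂ | p.1 ∈ zeros T ∧ p.2 ∈ zeros T ∧ 0 < p.1.im ∧ p.1.im = p.2.im},
    mult p.1 * mult p.2

/-- the pair correlation function -/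
noncomputable def F (u : ℝ) : ℝ := 1 - (Real.sin (Real.pi * u) / (Real.pi * u)) ^ 2

/-- the normalisation -/
noncomputable def X (T : ℝ) : ℝ := T * Real.log T / (2 * Real.pi)

/-- the conjecture (Q1) -/
def Mont : Prop := ∀ α β : ℝ, 0 < α → α < β →
  Tendsto (fun T => (N T α β : ℝ) / (X T * ∫ u in α..β, F u)) atTop (𝓝 1)

/-- the lower half for large distances, with an exponentially small loss -/
def LowExp : Prop := ∃ C c A : ℝ, 0 < c ∧ ∀ β : ℝ, A ≤ β → ∀ ε : ℝ, 0 < ε → ∀ᶠ T : ℝ in atTop,
  ((∫ u in (0 : ℝ)..β, F u) - C * Real.exp (-(c * β)) - ε) * X T ≤ N0 T β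

/-- the upper half for large distances, with an exponentially small loss -/
def UpExp : Prop := ∃ C c A : ℝ, 0 < c ∧ ∀ β : ℝ, A ≤ β → ∀ ε : ℝ, 0 < ε → ∀ᶠ T : ℝ in atTop,
  (N0 T β : ℝ) ≤ ((∫ u in (0 : ℝ)..β, F u) + C * Real.exp (-(c * β)) + ε) * X T

/-- there are at most `(1 + o(1)) X(T)` pairs of zeros with the same ordinate -/
def Diag : Prop := ∀ ε : ℝ, 0 < ε → ∀ᶠ T : ℝ in atTop, (D0 T : ℝ) ≤ (1 + ε) * X T

/-- the number of nontrivial zeros with ordinate in `(0, T]` and property `A`, counted with
multiplicity -/
noncomputable def Num (A : ℂ → Prop) (T : ℝ) : ℕ :=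
  ∑ᶠ s ∈ {s : ℂ | s ∈ {s : ℂ | riemannZeta s = 0 ∧ 0 < s.re ∧ s.re < 1} ∧ 0 < s.im ∧ s.im ≤ T ∧
    A s}, mult s

/-- almost all zeros are simple and on the critical line -/
def Good : Prop := Tendsto (fun T => (Num (fun s => s.re ≠ 1 / 2 ∨ deriv riemannZeta s = 0) T : ℝ) /
  Num (fun _ => True) T) atTop (𝓝 0)

/-- Without hypothesis: the pair correlation conjecture is equivalent to its lower half for large
distances with an exponentially small loss; it is equivalent to its upper half for large distances
with an exponentially small loss together with `Diag`; and it implies that almost all zeros are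
simple and on the critical line. -/
theorem result : (Mont ↔ LowExp) ∧ (Mont ↔ Diag ∧ UpExp) ∧ (Mont → Good) :=
  Q241.HF.main

end Pool.Agent.Results.MP_8958e8_nt.EitherHalf
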