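import Pool.Agent.Q278.GC.N
import Pool.Agent.Q150.GC.EX

/-!
# A quantitative Gaussian limit for the zeros of zeta, uniform in many test functions and scales

For a real test function `f` and `T ≤ t ≤ 2T` let

  `stat f L T t = ∑_ρ f((γ - t) log T / (2πL)) - L ∫ f`,

the sum over all nontrivial zeros of zeta with multiplicity, and let
`cov f g = ∫ |ξ| Re(𝓕 f(ξ) conj 𝓕 g(ξ)) dξ`, the covariance of the sine process (the GUE prediction)
at large scales.  Let `M ≥ 1`, `M^20 ≤ L` and `M^20 L ≤ log T`, so that `L` and `log T / L` are large: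
all mesoscopic scales are allowed, and `M` may be a small power of `min(L, log T / L)`.
No hypothesis is assumed.

(1) Fix a smooth `g` of compact support.  For ANY `n ≤ M` places `x_i` in `[-M, M]` and scales `s_i` in
`[1/M, 1]`, the vector of the `n` statistics of the windows `g((v - x_i)/s_i)`, for `t` uniform in
`[T, 2T]`, is within `C / M` of the centred Gaussian vector with the covariance matrix of the GUE
prediction, tested against all functions `φ` on the Euclidean space of dimension `n` with `|φ| ≤ 1` and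
Lipschitz constant `1`.  The constant `C` depends on `g` only.

(2) Fix a smooth step `H` (zero left of `-1`, one right of `1`), and for `J ≥ 1` let
`fld H J x v = H(2^J (v - x)) - H(v - x)`.  The statistic of `fld H J x` is the counting function of the
zeros at the place `x`, smoothed at the scale `2^(-J)` and with the scales above `1` removed, minus its
mean: a field indexed by `x` with variance of the order of `J`.  For `n J ≤ M`, `2^J ≤ M` and any
`x_i ∈ [-M, M]` the field at the places `x_1, ..., x_n` is within `C λ J / M` of the Gaussian field,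
tested against all `φ` with `|φ| ≤ 1` and Lipschitz constant `λ ≥ 1`.

The dimension `n` is allowed to grow like a power of `min(L, log T / L)` and the scales to differ by
such a power.  Known before: fixed dimension, without rates.

Proof.  The explicit formula (unconditional) replaces the statistics by sums over primes up to `X`,
`log X = o(log T)`; the small primes are removed by the second moment; the remaining Dirichlet
polynomial is compared with the Gaussian vector through the characteristic function on a ball of radius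
`M^9`, computed with all mixed moments of order up to `M^19`; a smoothing inequality in dimension `n`
and a comparison of Gaussian measures with close covariances finish the proof.
-/

set_option autoImplicit false

open Filter Topology MeasureTheory ProbabilityTheory
open scoped FourierTransform ContDiff ComplexConjugate

namespace Pool.Agent.Results.MP_8958e8_nt.GaussianCoupling

/-- multiplicity of `s` as a zero of the Riemann zeta function (order of vanishing at `s`) -/
noncomputable def zmult (s : ℂ) : ℕ := analyticOrderNatAt riemannZeta s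

/-- the nontrivial zeros of `ζ` -/
def ZZ : Set ℂ := {s : ℂ | riemannZeta s = 0 ∧ 0 < s.re ∧ s.re < 1}

/-- the centred linear statistic at scale `L` -/
noncomputable def stat (f : ℝ → ℝ) (L T t : ℝ) : ℝ :=
  ∑ᶠ s ∈ ZZ, (zmult s : ℝ) * f ((s.im - t) * Real.log T / (2 * Real.pi * L)) - L * ∫ x, f x

/-- the limiting covariance -/
noncomputable def cov (f g : ℝ → ℝ) : ℝ :=
  ∫ ξ : ℝ, |ξ| * (𝓕 (fun x => (f x : ℂ)) ξ * conj (𝓕 (fun x => (g x : ℂ)) ξ)).re

/-- the covariance matrix of several test functions -/
noncomputable def covM {n : ℕ} (f : Fin n → ℝ → ℝ) : Matrix (Fin n) (Fin n) ℝ :=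
  Matrix.of fun i j => cov (f i) (f j)

/-- the vector of the statistics -/
noncomputable def vec {n : ℕ} (f : Fin n → ℝ → ℝ) (L T t : ℝ) : EuclideanSpace ℝ (Fin n) :=
  WithLp.toLp 2 fun i => stat (f i) L T t

/-- the test function `g` moved to the place `x` and the scale `s` -/
noncomputable def dil (g : ℝ → ℝ) (x s v : ℝ) : ℝ := g ((v - x) / s)

/-- the smoothed counting function at the place `x` with the scales between `2^(-J)` and `1` -/
noncomputable def fld (H : ℝ → ℝ) (J : ℕ) (x v : ℝ) : ℝ := H (2 ^ J * (v - x)) - H (v - x)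

lemma stat_eq (f : ℝ → ℝ) (L T t : ℝ) : stat f L T t = Q278.MC.st f L T t := by
  unfold stat Q278.MC.st Q278.MC.SZ Q278.MC.aP zmult ZZ
  have e : ∀ s : ℂ, (s.im - t) * Real.log T / (2 * Real.pi * L) =
      Real.log T / (2 * Real.pi * L) * (s.im - t) := fun s => by ring
  simp only [e]

lemma vec_eq {n : ℕ} (f : Fin n → ℝ → ℝ) (L T t : ℝ) : vec f L T t = Q278.MC.vc f L T t := by
  unfold vec Q278.MC.vc
  simp only [stat_eq]

lemma covM_eq {n : ℕ} (f : Fin n → ℝ → ℝ) : covM f = Q278.MC.cm f := rfl

lemma test_CC {f : ℝ → ℝ} (h1 : ContDiff ℝ ∞ f) (h2 : HasCompactSupport f) :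
    Q278.MC.CC (Q278.MC.fc f) := by
  constructor
  · exact Complex.ofRealCLM.contDiff.comp h1
  · exact h2.comp_left (g := fun x : ℝ => (x : ℂ)) Complex.ofReal_zero

/-- **Quantitative Gaussian approximation of the zeros of zeta in growing dimension.** -/
theorem result :
    (∀ g : ℝ → ℝ, ContDiff ℝ ∞ g → HasCompactSupport g → ∃ C : ℝ, 0 < C ∧
      ∀ M L T : ℝ, 1 ≤ M → M ^ 20 ≤ L → M ^ 20 * L ≤ Real.log T → 0 < T →
      ∀ (n : ℕ) (x s : Fin n → ℝ), (n : ℝ) ≤ M → (∀ i, |x i| ≤ M ∧ 1 / M ≤ s i ∧ s i ≤ 1) →
        (covM fun i => dil g (x i) (s i)).PosSemidef ∧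
        ∀ φ : EuclideanSpace ℝ (Fin n) → ℝ, (∀ y, |φ y| ≤ 1) → LipschitzWith 1 φ →
          |1 / T * (∫ t in T..(2 * T), φ (vec (fun i => dil g (x i) (s i)) L T t)) -
            ∫ y, φ y ∂(multivariateGaussian 0 (covM fun i => dil g (x i) (s i)))| ≤ C / M) ∧
    (∀ H : ℝ → ℝ, ContDiff ℝ ∞ H → (∀ v, v ≤ -1 → H v = 0) → (∀ v, 1 ≤ v → H v = 1) →
      ∃ C : ℝ, 0 < C ∧
      ∀ M L T : ℝ, 1 ≤ M → M ^ 20 ≤ L → M ^ 20 * L ≤ Real.log T → 0 < T →
      ∀ (n J : ℕ) (x : Fin n → ℝ), 1 ≤ J → (n : ℝ) * J ≤ M → (2 : ℝ) ^ J ≤ M → (∀ i, |x i| ≤ M) →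
        (covM fun i => fld H J (x i)).PosSemidef ∧
        ∀ (φ : EuclideanSpace ℝ (Fin n) → ℝ) (lam : ℝ), (∀ y, |φ y| ≤ 1) → 1 ≤ lam →
          (∀ u v, |φ u - φ v| ≤ lam * ‖u - v‖) →
          |1 / T * (∫ t in T..(2 * T), φ (vec (fun i => fld H J (x i)) L T t)) -
            ∫ y, φ y ∂(multivariateGaussian 0 (covM fun i => fld H J (x i)))| ≤
              C * lam * J / M) := by
  constructor
  · intro g hg1 hg2
    obtain ⟨C, hC, h⟩ := Q278.GC.coupling1 (test_CC hg1 hg2)
    refine ⟨C, hC, fun M L T hM hL hT hT0 n x s hn hxs => ⟨?_, fun φ hφ1 hφ => ?_⟩⟩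
    · have hM0 : 0 < M := by linarith
      exact Q278.GC.cm_fG_pos (test_CC hg1 hg2) (x := x) (s := s) fun i =>
        lt_of_lt_of_le (by positivity) (hxs i).2.1
    · have h1 := h M L T hM hL hT hT0 n x s hn hxs φ hφ1 hφ
      simp only [vec_eq]
      exact h1
  · intro H hH1 hH2 hH3
    have hH : Q278.GC.Step H := ⟨hH1, hH2, hH3⟩
    obtain ⟨C, hC, h⟩ := Q278.GC.coupling_fj Q129.GC.t_SM Q129.GC.t_CV Q150.GC.t_LIN hH
    refine ⟨C + 200, by linarith, fun M L T hM hL hT hT0 n J x hJ hn hJM hx => ⟨?_, ?_⟩⟩
    · exact Q278.MC.cm_pos (f := fun i => fld H J (x i)) fun i => Q278.GC.fj_CC hH J (x i)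
    · intro φ lam hφ1 hlam hφ
      have hM0 : 0 < M := by linarith
      have hJ1 : (1 : ℝ) ≤ J := by exact_mod_cast hJ
      have e1 : 1 ≤ lam * J := by nlinarith
      have e2 : 0 ≤ C * (lam * J) / M := by positivity
      have e3 : (C + 200) * lam * J / M = C * (lam * J) / M + 200 * (lam * J) / M := by ring
      simp only [vec_eq]
      rcases le_or_gt 100 M with hM' | hM'
      · have h1 := h M L T hM' hL hT hT0 n J x hJ (by push_cast; exact hn) hJM hx φ lam hφ1 hlam hφ
        refine h1.trans ?_
        rw [e3]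
        have e4 : 0 ≤ 200 * (lam * J) / M := by positivity
        have e5 : C * lam * J / M = C * (lam * J) / M := by ring
        rw [e5]
        linarith
      · have h1 := Q278.GC.phi_le (n := n) (f := fun i => fld H J (x i)) (L := L) (T := T) hT0 φ hφ1
          (covM fun i => fld H J (x i))
        refine h1.trans ?_
        rw [e3]
        have e4 : 2 ≤ 200 * (lam * J) / M := by
          rw [le_div_iff₀ hM0]
          nlinarith
        linarith

end Pool.Agent.Results.MP_8958e8_nt.GaussianCoupling
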