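import Pool.Agent.Q97.BG.PCu

/-!
# One half of the pair correlation conjecture at a sparse set of distances implies it

No hypothesis is assumed.  The pair correlation conjecture (Q1) is equivalent to the following:
almost all zeros are on the critical line, and one half of the asymptotic formula (the lower or the
upper bound) holds for the windows `[α, β]` which lie inside the intervals `(a n, b n)` of a system
with `∑ ((b n - a n) / b n) ^ 2 = ∞`; the half may depend on `n`.  Examples of such systems are
the intervals `(r, (1 + c) r)` with a fixed `c > 0` and `r` in an arbitrary unbounded set.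

Proof.  Let `μ` be a limit of the normalised measures of the differences of ordinates and `h` the
difference of `μ` and the GUE prediction.  If almost all zeros are on the line then Montgomery's
theorem holds for the ordinates, and `h` has a spectral gap around the origin.  Let `g` be a
spectral smoothing of `h`, with the same sign.  Integrating `g` against a high power of `sinc` one
sees that the mass of `g` in the middle of an interval of length `ℓ` on which `g` has a constant
sign is at most `exp (-c ℓ)`.  The Cauchy transform of `g` decays like `exp (-c |Im z|)`, hence it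
is at most `exp (-c' ℓ)` in the middle of these intervals as well (maximum principle).  Multiplying
by the outer functions of these intervals and by the Phragmén–Lindelöf principle, the Cauchy
transform vanishes.
-/

set_option autoImplicit false

open Filter Topology Set

namespace Pool.Agent.Results.MP_8958e8_nt.HalvesAtSparseDistances

/-- the nontrivial zeros of `ζ` with ordinate in `[0, T]` -/
def zeros (T : ℝ) : Set ℂ :=
  {s : ℂ | riemannZeta s = 0 ∧ 0 < s.re ∧ s.re < 1 ∧ 0 ≤ s.im ∧ s.im ≤ T}

/-- the multiplicity of a zero -/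
noncomputable def mult (s : ℂ) : ℕ := analyticOrderNatAt riemannZeta s

/-- `N(T; α, β)` as in the problem: the number of ordered pairs of ordinates in `[0, T]`, counted
with multiplicity, whose normalised difference lies in `[α, β]` -/
noncomputable def N (T α β : ℝ) : ℕ :=
  ∑ᶠ p ∈ {p : ℂ × ℂ | p.1 ∈ zeros T ∧ p.2 ∈ zeros T ∧
    α ≤ (p.1.im - p.2.im) * Real.log T / (2 * Real.pi) ∧
    (p.1.im - p.2.im) * Real.log T / (2 * Real.pi) ≤ β}, mult p.1 * mult p.2

/-- the pair correlation function -/
noncomputable def F (u : ℝ) : ℝ := 1 - (Real.sin (Real.pi * u) / (Real.pi * u)) ^ 2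

/-- the normalisation -/
noncomputable def X (T : ℝ) : ℝ := T * Real.log T / (2 * Real.pi)

/-- the conjecture (Q1) -/
def Mont : Prop := ∀ α β : ℝ, 0 < α → α < β →
  Tendsto (fun T => (N T α β : ℝ) / (X T * ∫ u in α..β, F u)) atTop (𝓝 1)

/-- one half of the asymptotic formula for the window `[α, β]`: the lower bound
`liminf N(T; α, β) / X(T) ≥ ∫ F` for `s = 1`, the upper bound
`limsup N(T; α, β) / X(T) ≤ ∫ F` for `s = -1` -/
def Half (s α β : ℝ) : Prop := ∀ ε : ℝ, 0 < ε → ∀ᶠ T : ℝ in atTop,
  -ε ≤ s * ((N T α β : ℝ) / X T - ∫ u in α..β, F u)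

/-- the number of nontrivial zeros with ordinate in `(0, T]` and property `A`, counted with
multiplicity -/
noncomputable def Num (A : ℂ → Prop) (T : ℝ) : ℕ :=
  ∑ᶠ s ∈ {s : ℂ | s ∈ {s : ℂ | riemannZeta s = 0 ∧ 0 < s.re ∧ s.re < 1} ∧ 0 < s.im ∧ s.im ≤ T ∧
    A s}, mult s

/-- almost all zeros are on the critical line -/
def Line : Prop := Tendsto (fun T => (Num (fun s => s.re ≠ 1 / 2) T : ℝ) /
    Num (fun _ => True) T) atTop (𝓝 0)

/-- **One half of the pair correlation conjecture at sparse distances implies it** (no hypothesis).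

(1) For pairwise disjoint intervals `(a n, b n)`, `0 < a n`, of length at least `lam > 0`, with
`∑ ((b n - a n) / b n) ^ 2 = ∞`, and arbitrary signs `σ n = ± 1`: the conjecture is equivalent to
`Line` together with the half of sign `σ n` for all windows inside `(a n, b n)`, for all `n`.

(2) For `c > 0`, every unbounded set `R` of nonnegative reals and arbitrary signs: the conjecture
is equivalent to `Line` together with the half of sign `s r` for all windows inside
`(r, (1 + c) r)`, for all `r ∈ R`. -/
theorem result :
    (∀ (a b σ : ℕ → ℝ) (lam : ℝ), 0 < lam → (∀ n, 0 < a n) → (∀ n, a n + lam ≤ b n) →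
      (Pairwise fun n k => Disjoint (Ioo (a n) (b n)) (Ioo (a k) (b k))) →
      (¬ Summable fun n => ((b n - a n) / b n) ^ 2) → (∀ n, σ n = 1 ∨ σ n = -1) →
      (Mont ↔ Line ∧ ∀ n, ∀ α β : ℝ, a n < α → α < β → β < b n → Half (σ n) α β)) ∧
    (∀ (c : ℝ) (R : Set ℝ) (s : ℝ → ℝ), 0 < c → ¬ BddAbove R → (∀ r ∈ R, 0 ≤ r) →
      (∀ r, s r = 1 ∨ s r = -1) →
      (Mont ↔ Line ∧ ∀ r ∈ R, ∀ α β : ℝ, r < α → α < β → β < (1 + c) * r → Half (s r) α β)) :=
  ⟨fun _ _ _ _ hlam ha hlen hdisj hdiv hσ => Q97.BG.main_sys ha hlam hlen
      (fun _ _ hnk _ h1 h2 h3 h4 => Set.disjoint_left.mp (hdisj hnk) ⟨h1, h2⟩ ⟨h3, h4⟩) hdiv hσ,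
    fun _ _ _ hc hR hR0 hs => Q97.BG.main_lac hR hR0 hc hs⟩

end Pool.Agent.Results.MP_8958e8_nt.HalvesAtSparseDistances
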