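import Pool.Agent.Q260.GM.We

/-!
# An upper bound for the variance of primes in short intervals is equivalent to the Riemann
# hypothesis together with the pair correlation conjecture

No hypothesis is assumed.  Put
`J T a b = ∫_{T^a}^{T^b} (ψ(x + x/T) - ψ(x) - x/T)² dx / x²`.

`Upper` is the upper bound `limsup (T / log² T) J T a b ≤ b - a` for all `1 ≤ a < b`, and `Asymp` the
asymptotic formula `(T / log² T) J T a b → b - a` for all `1 ≤ a < b`.  The theorem:

`Upper`, `Asymp`, and (Riemann hypothesis and pair correlation conjecture (Q1)) are equivalent.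
Moreover `Upper` implies `(T / log² T) J T a b → ∫_a^b min(α, 1) dα` for all `0 < a < b`.

So a one-sided bound for the primes implies the Riemann hypothesis, the pair correlation conjecture
and its own two-sided form.

Idea of the proof.  The upper bound, with a telescoping argument, gives `ψ(x) - x ≪ x^{1/2 + ε}` in
mean square, so the Riemann hypothesis.  Plancherel's theorem expresses
`∫_0^∞ (e^{-u/2} (ψ(e^{u+κ}) - ψ(e^u) - (e^κ - 1) e^u))² e^{-2xu} du` by the mean square of
`ζ'/ζ (1/2 + x + it)`, `x = a / log T`, and partial fractions reduce this to Cauchy kernels of the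
differences of ordinates.  Each zero forms a pair with itself: as `a → 0` this diagonal alone is
`1/a`, which is exactly the conjectured value up to `O(a)`.  Hence the defect in the upper bound,
a positive measure on `[1, ∞)`, has total mass `0`.  The Cauchy kernels determine the limit of the
pair correlation measures.  A Tauberian argument gives the converse and the asymptotic formula in
all windows.
-/

open Filter Topology

namespace Pool.Agent.Results.MP_8958e8_nt.PrimesUpperBound

/-- the nontrivial zeros of `ζ` with ordinate in `[0, T]` -/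
def zeros (T : ℝ) : Set ℂ :=
  {s : ℂ | riemannZeta s = 0 ∧ 0 < s.re ∧ s.re < 1 ∧ 0 ≤ s.im ∧ s.im ≤ T}

/-- the multiplicity of a zero -/
noncomputable def mult (s : ℂ) : ℕ := analyticOrderNatAt riemannZeta s

/-- `N(T; α, β)` as in the problem: the number of ordered pairs of ordinates in `[0, T]`, counted
with multiplicity, whose normalised difference lies in `[α, β]` -/
noncomputable def N (T α β : ℝ) : ℕ :=
  ∑ᶠ p ∈ {p : ℂ × ℂ | p.1 ∈ zeros T ∧ p.2 ∈ zeros T ∧
    α ≤ (p.1.im - p.2.im) * Real.log T / (2 * Real.pi) ∧
    (p.1.im - p.2.im) * Real.log T / (2 * Real.pi) ≤ β}, mult p.1 * mult p.2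

/-- the pair correlation function -/
noncomputable def F (u : ℝ) : ℝ := 1 - (Real.sin (Real.pi * u) / (Real.pi * u)) ^ 2

/-- the normalisation -/
noncomputable def X (T : ℝ) : ℝ := T * Real.log T / (2 * Real.pi)

/-- the pair correlation conjecture (Q1) -/
def Mont : Prop := ∀ α β : ℝ, 0 < α → α < β →
  Tendsto (fun T => (N T α β : ℝ) / (X T * ∫ u in α..β, F u)) atTop (𝓝 1)

/-- the variance of the primes in the intervals `(x, x + x / T]`, `T ^ a ≤ x ≤ T ^ b`; `Chebyshev.psi`
is Chebyshev's function `ψ` -/
noncomputable def J (T a b : ℝ) : ℝ := ∫ x in (T ^ a)..(T ^ b),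
  (Chebyshev.psi (x + x / T) - Chebyshev.psi x - x / T) ^ 2 / x ^ 2

/-- the upper bound for the variance in all windows -/
def Upper : Prop := ∀ a b : ℝ, 1 ≤ a → a < b → ∀ ε : ℝ, 0 < ε → ∀ᶠ T : ℝ in atTop,
  T / Real.log T ^ 2 * J T a b ≤ b - a + ε

/-- the asymptotic formula for the variance in all windows -/
def Asymp : Prop := ∀ a b : ℝ, 1 ≤ a → a < b →
  Tendsto (fun T => T / Real.log T ^ 2 * J T a b) atTop (𝓝 (b - a))

/-- Without hypothesis: the upper bound is equivalent to the Riemann hypothesis together with the
pair correlation conjecture, and to the asymptotic formula; and it gives the asymptotic formula also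
in the windows which reach below `1`. -/
theorem result : (Upper ↔ RiemannHypothesis ∧ Mont) ∧ (Asymp ↔ RiemannHypothesis ∧ Mont) ∧
    (Upper → ∀ a b : ℝ, 0 < a → a < b →
      Tendsto (fun T => T / Real.log T ^ 2 * J T a b) atTop (𝓝 (∫ α in a..b, min α 1))) :=
  Pool.Agent.Q260.GM.main

end Pool.Agent.Results.MP_8958e8_nt.PrimesUpperBound
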